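import Mathlib
import Pool.Agent.X23.EM4

/-!
# The excluded minors of `M'` are not exactly `U_{2,5}`, `U_{3,5}`, `F_7`, `F_7^*`

Some minor of the non-Fano matroid is an excluded minor of the class `M'` of matroids that are
regular or have characteristic set `{v ≥ 3, v ≠ 6}`, and is isomorphic to none of `U_{2,5}`,
`U_{3,5}`, `F_7`, `F_7^*`.
-/

namespace Pool.Agent.Results.MP_cf16d9_co.NonFanoMinor

open Pool.Agent.X23.EM

/-- There is an excluded minor of `M'` that is a minor of the non-Fano matroid and is isomorphic to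
none of `U_{2,5}`, `U_{3,5}`, `F_7`, `F_7^*`. -/
theorem result : ∃ (m : ℕ) (N : Mat m), IsExcludedMinor N ∧ IsMinor N nonFano ∧
    ¬ Iso N (unif 2 5) ∧ ¬ Iso N (unif 3 5) ∧ ¬ Iso N fano ∧ ¬ Iso N (dual fano) := main

end Pool.Agent.Results.MP_cf16d9_co.NonFanoMinor
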